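import Pool.Agent.Helper22_LLG.Stmt
import Pool.Agent.Common_LLL.Basic

/-!
# LLG, module LLLW: local lemma with weights
-/

set_option autoImplicit false

namespace Pool.Agent.LLG.H81

open Pool.Agent.LLG

theorem sum_biUnion_le'' {κ ι : Type} [DecidableEq κ] [DecidableEq ι] (s : Finset κ)
    (t : κ → Finset ι) (f : ι → ℝ) (hf : ∀ i, 0 ≤ f i) :
    ∑ i ∈ s.biUnion t, f i ≤ ∑ x ∈ s, ∑ i ∈ t x, f i := by
  induction s using Finset.induction_on with
  | empty => simp
  | insert a s ha ih =>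
    rw [Finset.biUnion_insert, Finset.sum_insert ha]
    have h1 := Finset.sum_union_inter (s₁ := t a) (s₂ := s.biUnion t) (f := f)
    have h2 : 0 ≤ ∑ i ∈ t a ∩ s.biUnion t, f i := Finset.sum_nonneg fun i _ => hf i
    linarith

/-- **LLLW.** -/
theorem lllw : LllwStmt := by
  classical
  intro I α ι _ _ _ _ _ B W x τ hB hx hτ hP
  have hx0 : ∀ i, 0 ≤ x i := fun i => (hx i).1
  have key := Pool.Agent.Common_LLL.lll_finite (V := I) (α := α) (fun i => (B i).toFinset) W
    (fun i ω ω' h hω => by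
      rw [Set.mem_toFinset] at hω ⊢
      exact hB i ω ω' h hω) x hx0 (fun i => (hx i).2.trans_lt (by norm_num)) (by
    intro i
    have h0 := hP i
    rw [Set.ncard_eq_toFinset_card'] at h0
    refine h0.trans ?_
    refine mul_le_mul_of_nonneg_right (mul_le_mul_of_nonneg_left ?_ (hx0 i)) (by positivity)
    have h1 : ∀ j, Real.exp (-(2 * x j)) ≤ 1 - x j := by
      intro j
      have a0 := hx0 j
      have a1 := (hx j).2
      have h2 : 1 + 2 * x j ≤ Real.exp (2 * x j) := by
        have := Real.add_one_le_exp (2 * x j)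
        linarith
      have h3 : 0 < Real.exp (2 * x j) := Real.exp_pos _
      rw [Real.exp_neg, inv_le_iff_one_le_mul₀ h3]
      have h4 : 1 ≤ (1 - x j) * (1 + 2 * x j) := by nlinarith
      have h5 : (1 - x j) * (1 + 2 * x j) ≤ (1 - x j) * Real.exp (2 * x j) :=
        mul_le_mul_of_nonneg_left h2 (by linarith)
      exact h4.trans h5
    have h2 : 2 * ∑ j ∈ Finset.univ.filter (fun j => j ≠ i ∧ ¬ Disjoint (W j) (W i)), x j ≤
        ∑ v ∈ W i, τ v := by
      have h3 : ∑ j ∈ Finset.univ.filter (fun j => j ≠ i ∧ ¬ Disjoint (W j) (W i)), x j ≤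
          ∑ v ∈ W i, ∑ j ∈ Finset.univ.filter (fun j => v ∈ W j), x j := by
        refine le_trans ?_ (sum_biUnion_le'' (W i)
          (fun v => Finset.univ.filter (fun j => v ∈ W j)) x hx0)
        refine Finset.sum_le_sum_of_subset_of_nonneg ?_ fun j _ _ => hx0 j
        intro j hj
        have hj' := (Finset.mem_filter.1 hj).2.2
        rw [Finset.not_disjoint_iff] at hj'
        obtain ⟨v, hv1, hv2⟩ := hj'
        exact Finset.mem_biUnion.2 ⟨v, hv2, Finset.mem_filter.2 ⟨Finset.mem_univ _, hv1⟩⟩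
      have h4 : ∑ v ∈ W i, 2 * ∑ j ∈ Finset.univ.filter (fun j => v ∈ W j), x j ≤
          ∑ v ∈ W i, τ v :=
        Finset.sum_le_sum fun v _ => hτ v _ fun j hj => (Finset.mem_filter.1 hj).2
      rw [← Finset.mul_sum] at h4
      linarith
    calc Real.exp (-∑ v ∈ W i, τ v)
        ≤ Real.exp (∑ j ∈ Finset.univ.filter (fun j => j ≠ i ∧ ¬ Disjoint (W j) (W i)),
            (-(2 * x j))) := by
          apply Real.exp_le_exp.2
          rw [Finset.sum_neg_distrib, ← Finset.mul_sum]
          linarith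
      _ = ∏ j ∈ Finset.univ.filter (fun j => j ≠ i ∧ ¬ Disjoint (W j) (W i)),
            Real.exp (-(2 * x j)) := Real.exp_sum _ _
      _ ≤ ∏ j ∈ Finset.univ.filter (fun j => j ≠ i ∧ ¬ Disjoint (W j) (W i)), (1 - x j) :=
          Finset.prod_le_prod (fun j _ => (Real.exp_pos _).le) fun j _ => h1 j)
  obtain ⟨ω, hω⟩ := key
  exact ⟨ω, fun i hi => hω i (by rw [Set.mem_toFinset]; exact hi)⟩

end Pool.Agent.LLG.H81
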