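import Pool.Agent.Helper22_LLG.Stmt

/-!
# LLG, module NUME: numerical conditions of EVS
-/

set_option autoImplicit false

namespace Pool.Agent.LLG.H81

open Pool.Agent.LLG

theorem nume_exp1 (a l N h : ℕ) (hN : N = 2 * (160000 * (l + 10))) (hh : h = 10 ^ 6 * (a + 30))
    (hl : 35 ≤ l) : 8 + 2 * (l + 23) + 2 * (l + 1) + (a + 23) * N ≤ (l + 1) * h := by
  have h1 : N ≤ 400000 * (l + 1) := by omega
  have h2 : (a + 23) * N ≤ (a + 23) * (400000 * (l + 1)) := Nat.mul_le_mul_left _ h1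
  subst hh
  have h3 : (a + 23) * (400000 * (l + 1)) + 56 * (l + 1) ≤ (l + 1) * (10 ^ 6 * (a + 30)) := by
    nlinarith [Nat.zero_le (a * l)]
  omega

theorem nume_part1 (k T a l N h : ℕ) (hk1 : 2 ^ l ≤ k) (hk2 : k < 2 ^ (l + 1))
    (hT : (2 * k : ℝ) / T ≤ 2 ^ (a + 23)) (hN : N = 2 * (160000 * (l + 10)))
    (hh : h = 10 ^ 6 * (a + 30)) (hl : 35 ≤ l) :
    2 * (N : ℝ) ^ 2 * ((2 * k : ℝ) / T) ^ N * ((2 * k : ℝ) ^ h)⁻¹ ≤
      1 / (64 * (k : ℝ) ^ 2) / 2 := by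
  have hk0 : (0 : ℝ) < k := by
    have : 0 < k := lt_of_lt_of_le (by positivity) hk1
    exact_mod_cast this
  have e1 := nume_exp1 a l N h hN hh hl
  have h1 : ((2 * k : ℝ) / T) ^ N ≤ 2 ^ ((a + 23) * N) := by
    rw [pow_mul]
    exact pow_le_pow_left₀ (by positivity) hT N
  have h2 : (2 : ℝ) ^ ((l + 1) * h) ≤ (2 * k : ℝ) ^ h := by
    rw [pow_mul]
    refine pow_le_pow_left₀ (by positivity) ?_ h
    have : (2 : ℝ) ^ l ≤ k := by exact_mod_cast hk1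
    rw [pow_succ]
    linarith
  have h3 : (N : ℝ) ≤ 2 ^ (l + 23) := by
    have h31 : l + 10 ≤ 2 ^ (l + 4) := by
      have : l < 2 ^ l := Nat.lt_two_pow_self
      rw [pow_add]
      omega
    have h32 : N ≤ 2 ^ (l + 23) := by
      have : 2 ^ (l + 23) = 2 ^ (l + 4) * 2 ^ 19 := by rw [← pow_add]
      rw [this, hN]
      omega
    exact_mod_cast h32
  have h3' : (N : ℝ) ^ 2 ≤ 2 ^ (2 * (l + 23)) := by
    rw [mul_comm 2, pow_mul]
    exact pow_le_pow_left₀ (by positivity) h3 2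
  have h4 : (k : ℝ) ^ 2 ≤ 2 ^ (2 * (l + 1)) := by
    rw [mul_comm 2, pow_mul]
    refine pow_le_pow_left₀ (by positivity) ?_ 2
    exact_mod_cast hk2.le
  have h5 : (2 : ℝ) ^ 8 * (N : ℝ) ^ 2 * (k : ℝ) ^ 2 * ((2 * k : ℝ) / T) ^ N ≤ (2 * k : ℝ) ^ h := by
    calc (2 : ℝ) ^ 8 * (N : ℝ) ^ 2 * (k : ℝ) ^ 2 * ((2 * k : ℝ) / T) ^ N
        ≤ 2 ^ 8 * 2 ^ (2 * (l + 23)) * 2 ^ (2 * (l + 1)) * 2 ^ ((a + 23) * N) := by
          gcongr
      _ = 2 ^ (8 + 2 * (l + 23) + 2 * (l + 1) + (a + 23) * N) := by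
          rw [pow_add, pow_add, pow_add]
      _ ≤ 2 ^ ((l + 1) * h) := pow_le_pow_right₀ (by norm_num) e1
      _ ≤ (2 * k : ℝ) ^ h := h2
  have hY : (0 : ℝ) < (2 * k : ℝ) ^ h := by positivity
  generalize (2 * k : ℝ) ^ h = Y at *
  generalize ((2 * k : ℝ) / T) ^ N = X at *
  rw [div_div, le_div_iff₀ (by positivity), mul_comm, ← mul_assoc, ← div_eq_mul_inv,
    div_le_one hY]
  calc 64 * (k : ℝ) ^ 2 * 2 * (2 * (N : ℝ) ^ 2 * X)
      = (2 : ℝ) ^ 8 * (N : ℝ) ^ 2 * (k : ℝ) ^ 2 * X := by ring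
    _ ≤ Y := h5

theorem nume_exp2 (a l n e : ℕ) (hn : n = 40000 * (l + 1)) (he : e = 10 * (l + 1))
    (ha : 200 ≤ a) :
    8 + (l + 17) + (l + 1) + 2 * (l + 1) + (a + 24) * n ≤ (4996 * a + 1) * e := by
  subst hn he
  have h1 : 200 * (l + 1) ≤ a * (l + 1) := Nat.mul_le_mul_right _ ha
  nlinarith

theorem nume_part2 (k T q a l n : ℕ) (hk1 : 2 ^ l ≤ k) (hk2 : k < 2 ^ (l + 1))
    (hT : (4 * k : ℝ) / T ≤ 2 ^ (a + 24)) (hTk : T ≤ k) (hn : n = 40000 * (l + 1))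
    (hq : q * 2 ^ (4996 * a + 1) ≤ 2 * k) (ha : 200 ≤ a) :
    2 * (n : ℝ) * T * ((4 * k : ℝ) / T) ^ n * ((q : ℝ) / (2 * k)) ^ (n / 4000) ≤
      1 / (64 * (k : ℝ) ^ 2) / 2 := by
  have hk0 : (0 : ℝ) < k := by
    have : 0 < k := lt_of_lt_of_le (by positivity) hk1
    exact_mod_cast this
  obtain ⟨e, he⟩ : ∃ e, e = n / 4000 := ⟨_, rfl⟩
  have he' : e = 10 * (l + 1) := by omega
  rw [← he]
  have e1 := nume_exp2 a l n e hn he' ha
  have h1 : ((4 * k : ℝ) / T) ^ n ≤ 2 ^ ((a + 24) * n) := by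
    rw [pow_mul]
    exact pow_le_pow_left₀ (by positivity) hT n
  have h2 : ((q : ℝ) / (2 * k)) ^ e ≤ ((2 : ℝ) ^ ((4996 * a + 1) * e))⁻¹ := by
    rw [pow_mul, ← inv_pow]
    refine pow_le_pow_left₀ (by positivity) ?_ e
    rw [div_le_iff₀ (by positivity), ← div_eq_inv_mul, le_div_iff₀ (by positivity)]
    exact_mod_cast hq
  have h3 : (n : ℝ) ≤ 2 ^ (l + 17) := by
    have h31 : l + 1 ≤ 2 ^ (l + 1) := by
      have : l + 1 < 2 ^ (l + 1) := Nat.lt_two_pow_self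
      omega
    have h32 : n ≤ 2 ^ (l + 17) := by
      have : 2 ^ (l + 17) = 2 ^ (l + 1) * 2 ^ 16 := by rw [← pow_add]
      rw [this, hn]
      omega
    exact_mod_cast h32
  have h4 : (k : ℝ) ^ 2 ≤ 2 ^ (2 * (l + 1)) := by
    rw [mul_comm 2, pow_mul]
    refine pow_le_pow_left₀ (by positivity) ?_ 2
    exact_mod_cast hk2.le
  have h6 : (T : ℝ) ≤ 2 ^ (l + 1) := by exact_mod_cast hTk.trans hk2.le
  have h5 : (2 : ℝ) ^ 8 * (n : ℝ) * T * (k : ℝ) ^ 2 * ((4 * k : ℝ) / T) ^ n ≤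
      2 ^ ((4996 * a + 1) * e) := by
    calc (2 : ℝ) ^ 8 * (n : ℝ) * T * (k : ℝ) ^ 2 * ((4 * k : ℝ) / T) ^ n
        ≤ 2 ^ 8 * 2 ^ (l + 17) * 2 ^ (l + 1) * 2 ^ (2 * (l + 1)) * 2 ^ ((a + 24) * n) := by
          gcongr
      _ = 2 ^ (8 + (l + 17) + (l + 1) + 2 * (l + 1) + (a + 24) * n) := by
          rw [pow_add _ _ ((a + 24) * n), pow_add _ _ (2 * (l + 1)), pow_add _ _ (l + 1),
            pow_add _ _ (l + 17)]
      _ ≤ 2 ^ ((4996 * a + 1) * e) := pow_le_pow_right₀ (by norm_num) e1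
  have hY : (0 : ℝ) < (2 : ℝ) ^ ((4996 * a + 1) * e) := by positivity
  have hX : (0 : ℝ) ≤ ((4 * k : ℝ) / T) ^ n := by positivity
  generalize (2 : ℝ) ^ ((4996 * a + 1) * e) = Y at *
  generalize ((4 * k : ℝ) / T) ^ n = X at *
  generalize ((q : ℝ) / (2 * k)) ^ e = Z at *
  have h7 : 2 * (n : ℝ) * T * X * Z ≤ 2 * (n : ℝ) * T * X * Y⁻¹ := by gcongr
  refine h7.trans ?_
  rw [div_div, le_div_iff₀ (by positivity), mul_comm, ← mul_assoc, ← div_eq_mul_inv,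
    div_le_one hY]
  calc 64 * (k : ℝ) ^ 2 * 2 * (2 * (n : ℝ) * T * X)
      = (2 : ℝ) ^ 8 * (n : ℝ) * T * (k : ℝ) ^ 2 * X := by ring
    _ ≤ Y := h5

theorem log_pL (A K : ℕ) (h : 2 ^ (2 ^ A) ≤ K) : A ≤ Nat.log 2 (pL K) := by
  have h1 : 2 ^ A ≤ Nat.log 2 K := Nat.le_log_of_pow_le (by norm_num) h
  refine Nat.le_log_of_pow_le (by norm_num) ?_
  unfold pL
  omega

/-- **NUME.** -/
theorem nume : NumeStmt := by
  obtain ⟨A, hA⟩ : ∃ A : ℕ, A = 200 := ⟨_, rfl⟩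
  refine ⟨2 ^ (2 ^ A), ?_⟩
  intro K k q hK hk _ hq
  have ha := log_pL A K hK
  rw [hA] at ha
  clear hK
  obtain ⟨L, hL⟩ : ∃ L, L = pL K := ⟨_, rfl⟩
  obtain ⟨a, haa⟩ : ∃ a, a = Nat.log 2 L := ⟨_, rfl⟩
  obtain ⟨T, hT⟩ : ∃ T, T = pT K k := ⟨_, rfl⟩
  obtain ⟨l, hl⟩ : ∃ l, l = Nat.log 2 k := ⟨_, rfl⟩
  rw [← hL] at hk hq ha
  rw [← haa] at ha
  have hL1 : 2 ^ a ≤ L := by
    rw [haa]
    exact Nat.pow_log_le_self 2 (by rw [hL]; unfold pL; omega)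
  have hL2 : L < 2 ^ (a + 1) := by
    rw [haa]
    exact Nat.lt_pow_succ_log_self (by norm_num) L
  have hL0 : 1 ≤ L := le_trans Nat.one_le_two_pow hL1
  have hL6 : 2 * 10 ^ 6 ≤ L := by
    refine le_trans ?_ ((Nat.pow_le_pow_right (by norm_num) ha).trans hL1)
    norm_num
  have hLk : L * L ≤ k := by
    have h1 : L ^ 2 ≤ L ^ 5000 := Nat.pow_le_pow_right hL0 (by norm_num)
    rw [pow_two] at h1
    exact h1.trans hk
  have hLk1 : L ≤ k := (Nat.le_mul_of_pos_left L hL0).trans hLk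
  have hk0 : k ≠ 0 := by omega
  have hk1 : 2 ^ l ≤ k := by
    rw [hl]
    exact Nat.pow_log_le_self 2 hk0
  have hk2 : k < 2 ^ (l + 1) := by
    rw [hl]
    exact Nat.lt_pow_succ_log_self (by norm_num) k
  have hl35 : 35 ≤ l := by
    rw [hl]
    refine Nat.le_log_of_pow_le (by norm_num) ?_
    refine le_trans (Nat.pow_le_pow_right (by norm_num) ?_) (hL1.trans hLk1)
    omega
  have hTk : T ≤ k := by
    rw [hT]
    exact Nat.div_le_self _ _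
  have hTdef : T = k / (10 ^ 6 * L) := by rw [hT, hL]; rfl
  have hT1 : 1 ≤ T := by
    rw [hTdef, Nat.one_le_div_iff (by positivity)]
    exact le_trans (Nat.mul_le_mul_right _ (by omega)) hLk
  have hT2 : k < 2 * (10 ^ 6 * L) * T := by
    have h1 : k < 10 ^ 6 * L * (T + 1) := by
      rw [hTdef]
      exact Nat.lt_mul_div_succ k (by positivity)
    have h2 : 10 ^ 6 * L * (T + 1) ≤ 10 ^ 6 * L * (2 * T) := Nat.mul_le_mul_left _ (by omega)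
    calc k < 10 ^ 6 * L * (T + 1) := h1
      _ ≤ 10 ^ 6 * L * (2 * T) := h2
      _ = 2 * (10 ^ 6 * L) * T := by ring
  have hT0' : (0 : ℝ) < T := by exact_mod_cast hT1
  have hT2' : (k : ℝ) ≤ 2 * (10 ^ 6 * L) * T := by exact_mod_cast hT2.le
  have hL2' : (L : ℝ) ≤ 2 ^ (a + 1) := by exact_mod_cast hL2.le
  have hr1 : (2 * k : ℝ) / T ≤ 2 ^ (a + 23) := by
    rw [div_le_iff₀ hT0']
    have h1 : (2 : ℝ) ^ (a + 23) = 2 ^ 22 * 2 ^ (a + 1) := by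
      rw [← pow_add]
      congr 1
      omega
    rw [h1]
    have h2 : (4 * 10 ^ 6 : ℝ) * L ≤ 2 ^ 22 * 2 ^ (a + 1) :=
      mul_le_mul (by norm_num) hL2' (by positivity) (by positivity)
    have h3 := mul_le_mul_of_nonneg_right h2 hT0'.le
    linarith
  have hr2 : (4 * k : ℝ) / T ≤ 2 ^ (a + 24) := by
    have h1 : (4 * k : ℝ) / T = 2 * ((2 * k : ℝ) / T) := by ring
    rw [h1, pow_succ (2 : ℝ) (a + 23)]
    linarith
  have hq2 : q * 2 ^ (4996 * a + 1) ≤ 2 * k := by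
    have h1 : 2 ^ (4996 * a) ≤ L ^ 4996 := by
      rw [mul_comm, pow_mul]
      exact Nat.pow_le_pow_left hL1 _
    have h2 : q * 2 ^ (4996 * a) ≤ L ^ 4 * L ^ 4996 := Nat.mul_le_mul hq h1
    have h3 : L ^ 4 * L ^ 4996 = L ^ 5000 := by rw [← pow_add]
    rw [h3] at h2
    calc q * 2 ^ (4996 * a + 1) = 2 * (q * 2 ^ (4996 * a)) := by rw [pow_succ]; ring
      _ ≤ 2 * k := Nat.mul_le_mul_left _ (h2.trans hk)
  have hqk : q ≤ k := by
    have h1 : L ^ 4 ≤ L ^ 5000 := Nat.pow_le_pow_right hL0 (by norm_num)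
    exact hq.trans (h1.trans hk)
  have hpH : 2 * pH k = 2 * (160000 * (l + 10)) := by rw [hl]; rfl
  have hpn : pn k = 40000 * (l + 1) := by rw [hl]; rfl
  have hph : ph K = 10 ^ 6 * (a + 30) := by rw [haa, hL]; rfl
  rw [← hT]
  refine ⟨by omega, hT1, hTk, hqk, ?_, ?_, ?_, ?_, ?_⟩
  · rw [hph]; omega
  · rw [hpn]; omega
  · rw [hpH]; omega
  · exact nume_part1 k T a l (2 * pH k) (ph K) hk1 hk2 hr1 hpH hph hl35
  · exact nume_part2 k T q a l (pn k) hk1 hk2 hr2 hTk hpn hq2 ha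

end Pool.Agent.LLG.H81
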